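import Pool.Agent.W495.FM.Generic

/-!
# The Tate conjecture for function fields of varieties generated by small abelian varieties

An abelian variety over the field with `p ^ a` elements is modelled by `RedAV` (Honda, Tate): a
finite product of CM types `(E i, Φ i)` with Weil numbers `π i ∈ E i` that satisfy the formula of
Shimura and Taniyama; its cohomology of degree `n` consists of the alternating `n`-forms on the Tate
module `Ω ⊗ H_1`, on which the Frobenius endomorphism acts by `π`.

`IsSmall Y`: the dimension of `Y` is at most four; or `Y` is (over an algebraic closure) isogenous to
the product of a power of a simple abelian variety of dimension at most five and of a supersingular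
abelian variety; or `Y` is a product of abelian varieties of dimension at most three, with a condition
on the Galois closures of their CM fields. The Newton polygon is arbitrary.

For a variety `X` of dimension `d` and an open subvariety `U`, the group `H^a(U, ℚ_ℓ(j))` of the
problem is the homology group `H_(2 d - a)(U, ℚ_ℓ(d - j))`.

* For all `X` of the class `Spread` (it contains the varieties generated by small abelian varieties,
  and is closed under open subvarieties, images under proper morphisms, unions of a closed and an open
  member, and motivic direct summands) the group `H^a(F_0 X, ℚ_ℓ(j))` has no Galois invariants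
  different from zero in all degrees `a ≠ 0` with `a < j` or `2 j ≤ a`; in particular for
  `a = 2 j > 0` (all Tate classes of open subvarieties die at the generic point).
* For all `X` of the class generated by small abelian varieties the Galois invariants of
  `H^a(F_0 X, ℚ_ℓ(j))` come from higher Chow groups for all `j`, if `a ≤ 2`; for `a = j = 2` they come
  from symbols (`K_2` of the function field).
-/

namespace Pool.Agent.Results.MP_677d84_ag.GeneratedBySmallAbelian

open Pool.Agent.W495.TA Pool.Agent.W495.FM

/-- The Tate conjecture for the function field of `X` in the degree `a` with the twist `j`, if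
`a < j` or `2 j ≤ a` or `a ≤ 2`. -/
theorem result (p : ℕ) [Fact p.Prime] (ν : PadicAlgCl p ≃+* ℂ) (Ω : Type) [Field Ω]
    [IsAlgClosed Ω] [CharZero Ω] (V : Type) (T : Homology Ω V) (hT : IsHomology T)
    (hW : HasWeights T) (X : V) (d : ℤ) (G : Opens T) (hG : IsOpens G X d) :
    (Spread T (IsKnown p ν T) X → ∀ a j : ℤ, a < j ∨ 2 * j ≤ a →
      GenericAt G (2 * d - a) (d - j) ∧ (a ≠ 0 → NoInvariants G (2 * d - a) (d - j))) ∧
    (Generated T (IsSmallAbelian p ν T) X → ∀ a j : ℤ, a ≤ 2 →
      GenericAt G (2 * d - a) (d - j)) :=
  ⟨fun hX _ _ h => generic_outside hT hW hG (onto_known_spread hT hW hX) h,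
    fun hX _ _ h => generic_two hT hW hG (tb_small hT hX) h⟩

end Pool.Agent.Results.MP_677d84_ag.GeneratedBySmallAbelian
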