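import Pool.Agent.W547.UB.Generic

/-!
# Invariant classes at the generic point of ordinary abelian varieties in independent blocks

Let `A₀` be an ordinary abelian variety over the field with `q = p ^ a` elements, isogenous (after a
finite extension of the base field) to a product of any number of absolutely simple abelian varieties
`A₀ i` with complex multiplication by CM fields `E i` containing their Frobenius endomorphisms `π i`.
Its canonical lift is isogenous to the product `X` of the abelian varieties `A i` with complex
multiplication by `E i` and the CM types `Φ i` given by the embeddings `φ` for which `φ (π i)` has
slope one. 
The factors are divided into blocks (the block of the factor `A i` is `b i`), such that for each block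
there is an automorphism of the field of complex numbers that acts as the complex conjugation on all
embeddings of the CM fields in this block and trivially on all embeddings of the CM fields in the
other blocks (the intersection of the Galois closure of the fields of the block with the compositum of
the Galois closures of the other fields is totally real; for one block this is no condition). Each
block is of one of the following kinds:

* its factors have dimension at most three, and any two of them whose CM fields have the same Galois
  closure over `ℚ` have isomorphic CM types, unless these CM fields are Galois over `ℚ`;
* its factors are factors (up to isogeny) of one abelian variety of CM type of dimension at most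
  five, each with any multiplicity;
* its factors have the same CM type, with a CM field of degree at most fourteen;
* its factors are factors (up to isogeny) of one nondegenerate abelian variety of CM type, of
  arbitrary dimension, each with any multiplicity.

For example `X` may be any power of any abelian variety of CM type of dimension at most five, or any
power of a simple abelian variety of CM type of dimension at most seven, or a product of such powers
for which the Galois closures of the CM fields are linearly disjoint. The conditions hold for all
powers of `X` if they hold for `X`.

Let `V` be the rational Tate module of `A₀` and `F` its Frobenius endomorphism, and let `m > 0`. Let `W`
be the kernel of the map from `H^{2m}(A₀, ℚ_ℓ(m))` to the cohomology of the generic point. Of this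
subspace the theorem uses only that it is stable under `F` and that it contains the linear
combinations of the classes in the ring generated by the classes of divisors on `X` and by the
pull-backs, along homomorphisms `X → Y`, of the Weil classes of imaginary quadratic fields on abelian
fourfolds and sixfolds `Y` of CM type and of split Weil type. (These classes are algebraic by
the theorems of Lefschetz and Markman, and a cycle of positive codimension vanishes on a
non-empty open subvariety.)

Then the image of `H^{2m}(A₀, ℚ_ℓ(m))` in the cohomology of the generic point, which is the part of
weight zero, has no non-zero invariant under the Frobenius endomorphism. By the theorem of Deligne the
other parts have positive weights and no invariants either. So all invariant classes of degree `2 m`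
and twist `m` at the generic point of `A₀` are zero, as the question predicts because the
Chow groups of positive codimension of the spectrum of a field are zero.
-/

namespace Pool.Agent.Results.MP_677d84_ag.OrdinaryBlocks

open Pool.Agent.W547.KB Pool.Agent.W547.LD Pool.Agent.W530.NF Pool.Agent.W547.LN
open Pool.Agent.W547.LQ Pool.Agent.W547.UB

/-- `X` is the canonical lift of an ordinary abelian variety `A₀` over the field with `q = p ^ a`
elements, in independent blocks, `V` is the rational Tate module of `A₀`, `F` the Frobenius
endomorphism, `W` a stable subspace of `H^{2m}(A₀, K(m))` that contains the ring: there is no non-zero
invariant in the quotient by `W`. -/
theorem result (p : ℕ) [Fact p.Prime] (a : ℕ) (ha : 0 < a)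
    (ν : PadicAlgCl p ≃+* ℂ) (X : CMAV) {J : Type} (b : X.I → J) (hX : IndependentBlocks X b)
    (π : X.H1) (hπ : IsCanonicalLift p a ν X π)
    {K V : Type} [Field K] [CharZero K] [AddCommGroup V] [Module K V]
    (C : Comparison X K V) (F : V →ₗ[K] V) (hF : IsFrobeniusMap C π F)
    {m : ℕ} (W : Submodule K (Forms K V m)) (hW : IsGenericKernel C F W) :
    HasNoInvariants F (p ^ a) W :=
  noInvariants p a ha ν X b hX π hπ C F hF W hW

end Pool.Agent.Results.MP_677d84_ag.OrdinaryBlocks
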